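import Pool.Agent.Q23.CasExample

/-!
# A CAS whose partition map admits no CAS with property (T2)

`X` is the set of the cosets `b + 2 ^ k ℤ` in `ℚ` and the classes of the partition map are the
orbits of the group of the maps `t ↦ 2 ^ m t + c` on the pairs. For every CAS on discrete spaces with
property (T2) the classes of `h` and of the inverse of `h` have the same number of elements, which
is not the case here.
-/

namespace Pool.Agent.Results.MP_466bd8_al.NoT2Kernel

open Pool.Agent.Q23.Cas

/-- There is a CAS `(X, D, K)` on countable discrete spaces such that no CAS with the same spaces
and the same partition map has property (T2). -/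
theorem result : ∃ (X D : Type) (_ : Countable X) (_ : Countable D) (π : X → X → D) (_ : CAS π),
    ∀ S : CAS π, ¬ S.T2 :=
  ⟨Example.X, Example.D, inferInstance, inferInstance, Example.π, Example.scheme, Example.not_T2⟩

end Pool.Agent.Results.MP_466bd8_al.NoT2Kernel
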